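import Pool.Agent.W396.Il.Basic

set_option autoImplicit false

/-!
# Convex bodies close to a cube: supporting functionals and robust directions

`P` is a convex body in `ℝ^d` with `[-1, 1]^d ⊆ P ⊆ [-1-δ, 1+δ]^d`.
-/

namespace Pool.Agent.V7H11.NC

open Pool.Agent.W396.Il Finset

variable {d : ℕ}

/-- signs -/
def sg (b : Bool) : ℝ := cond b 1 (-1)

@[simp] theorem sg_true : sg true = 1 := rfl
@[simp] theorem sg_false : sg false = -1 := rfl

theorem sg_mul (b : Bool) : sg b * sg b = 1 := by cases b <;> simp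
theorem abs_sg (b : Bool) : |sg b| = 1 := by cases b <;> simp
theorem sg_not (b : Bool) : sg (!b) = -sg b := by cases b <;> simp
theorem sg_mul_mul (b : Bool) (x : ℝ) : sg b * (sg b * x) = x := by
  rw [← mul_assoc, sg_mul, one_mul]
theorem abs_sg_mul (b : Bool) (x : ℝ) : |sg b * x| = |x| := by rw [abs_mul, abs_sg, one_mul]

/-- the coefficients of a functional -/
def co (f : (Fin d → ℝ) →L[ℝ] ℝ) (i : Fin d) : ℝ := f (Pi.single i 1)

theorem apply_eq (f : (Fin d → ℝ) →L[ℝ] ℝ) (x : Fin d → ℝ) : f x = ∑ i, co f i * x i := by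
  conv_lhs => rw [← Finset.univ_sum_single x]
  rw [map_sum]
  refine sum_congr rfl fun i _ => ?_
  have : (Pi.single i (x i) : Fin d → ℝ) = x i • Pi.single i 1 := by
    rw [← Pi.single_smul, smul_eq_mul, mul_one]
  rw [this, map_smul, smul_eq_mul, mul_comm, co]

theorem exists_co_ne {f : (Fin d → ℝ) →L[ℝ] ℝ} (hf : f ≠ 0) : ∃ i, co f i ≠ 0 := by
  by_contra h
  push Not at h
  apply hf
  ext x
  rw [apply_eq]
  simp [h]

theorem co_smul (c : ℝ) (f : (Fin d → ℝ) →L[ℝ] ℝ) (i : Fin d) : co (c • f) i = c * co f i := by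
  simp [co]

/-- `[-1, 1]^d ⊆ P ⊆ [-1-δ, 1+δ]^d` -/
structure Near (P : Set (Fin d → ℝ)) (δ : ℝ) : Prop where
  conv : Convex ℝ P
  comp : IsCompact P
  cube : ∀ x : Fin d → ℝ, (∀ i, |x i| ≤ 1) → x ∈ P
  bd : ∀ x ∈ P, ∀ i, |x i| ≤ 1 + δ
  pos : 0 ≤ δ

/-- `f` is an outer normal of `P` at `x` -/
def Nor (P : Set (Fin d → ℝ)) (f : (Fin d → ℝ) →L[ℝ] ℝ) (x : Fin d → ℝ) : Prop :=
  ∀ y ∈ P, f y ≤ f x

/-- the sign pattern of `x` -/
def Pat (σ : Fin d → Bool) (x : Fin d → ℝ) : Prop := ∀ i, 0 ≤ sg (σ i) * x i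

variable {P : Set (Fin d → ℝ)} {δ : ℝ}

theorem exists_pat (x : Fin d → ℝ) : ∃ σ : Fin d → Bool, Pat σ x := by
  refine ⟨fun i => decide (0 ≤ x i), fun i => ?_⟩
  by_cases h : 0 ≤ x i
  · simp [h]
  · simp only [h, decide_false, sg_false]; linarith [not_le.1 h]

theorem Near.int_nonempty (h : Near P δ) : (interior P).Nonempty := by
  refine ⟨0, ?_⟩
  rw [mem_interior]
  refine ⟨Metric.ball 0 1, fun x hx => h.cube x fun i => ?_, Metric.isOpen_ball,
    Metric.mem_ball_self one_pos⟩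
  rw [mem_ball_zero_iff] at hx
  exact ((norm_le_pi_norm x i).trans hx.le)

theorem Near.mem_int (h : Near P δ) {x : Fin d → ℝ} (hx : ∀ i, |x i| < 1) : x ∈ interior P := by
  rw [mem_interior]
  refine ⟨{y | ∀ i, |y i| < 1}, fun y hy => h.cube y fun i => (hy i).le, ?_, hx⟩
  have : {y : Fin d → ℝ | ∀ i, |y i| < 1} = ⋂ i, {y | |y i| < 1} := by
    ext y; simp
  rw [this]
  exact isOpen_iInter_of_finite fun i => isOpen_lt (by fun_prop) continuous_const

/-- the support function of the cube -/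
theorem Near.sum_abs_le (h : Near P δ) {f : (Fin d → ℝ) →L[ℝ] ℝ} {x : Fin d → ℝ}
    (hf : Nor P f x) : ∑ i, |co f i| ≤ f x := by
  obtain ⟨w, hw⟩ : ∃ w : Fin d → ℝ, ∀ i, w i = if 0 ≤ co f i then (1 : ℝ) else -1 :=
    ⟨_, fun i => rfl⟩
  have h1 := hf w (h.cube w fun i => by rw [hw]; split_ifs <;> simp)
  rw [apply_eq] at h1
  refine le_trans (le_of_eq ?_) h1
  refine sum_congr rfl fun i _ => ?_
  rw [hw]
  split_ifs with h2
  · rw [abs_of_nonneg h2, mul_one]
  · rw [abs_of_neg (not_le.1 h2)]; ring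

theorem abs_eq_max (a : ℝ) : |a| = max a 0 + max (-a) 0 := by
  rcases le_total 0 a with h | h
  · rw [abs_of_nonneg h, max_eq_left h, max_eq_right (by linarith)]; ring
  · rw [abs_of_nonpos h, max_eq_right h, max_eq_left (by linarith)]; ring

theorem eq_max (a : ℝ) : a = max a 0 - max (-a) 0 := by
  rcases le_total 0 a with h | h
  · rw [max_eq_left h, max_eq_right (by linarith)]; ring
  · rw [max_eq_right h, max_eq_left (by linarith)]; ring

/-- The coefficients of a normal with the wrong sign are small. -/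
theorem Near.bad_le (h : Near P δ) {f : (Fin d → ℝ) →L[ℝ] ℝ} {x : Fin d → ℝ} (hx : x ∈ P)
    (hf : Nor P f x) {σ : Fin d → Bool} (hσ : Pat σ x) :
    ∑ i, max (-(sg (σ i) * co f i)) 0 ≤ δ * ∑ i, max (sg (σ i) * co f i) 0 := by
  have h1 := h.sum_abs_le hf
  have h2 : f x ≤ (1 + δ) * ∑ i, max (sg (σ i) * co f i) 0 := by
    rw [apply_eq, mul_sum]
    refine sum_le_sum fun i _ => ?_
    have e : co f i * x i = (sg (σ i) * co f i) * (sg (σ i) * x i) := by
      have := sg_mul (σ i)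
      linear_combination (-(co f i * x i)) * this
    rw [e]
    have hx1 : sg (σ i) * x i ≤ 1 + δ := by
      refine (le_abs_self _).trans ?_
      rw [abs_sg_mul]; exact h.bd x hx i
    have hx0 := hσ i
    rcases le_total 0 (sg (σ i) * co f i) with h3 | h3
    · rw [max_eq_left h3, mul_comm]
      exact mul_le_mul_of_nonneg_right hx1 h3
    · rw [max_eq_right h3, mul_zero]
      exact mul_nonpos_of_nonpos_of_nonneg h3 hx0
  have h3 : ∑ i, |co f i| = ∑ i, max (sg (σ i) * co f i) 0 + ∑ i, max (-(sg (σ i) * co f i)) 0 := by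
    rw [← sum_add_distrib]
    refine sum_congr rfl fun i _ => ?_
    rw [← abs_eq_max, abs_sg_mul]
  linarith

/-- the good part of a normal is positive -/
theorem Near.good_pos (h : Near P δ) {f : (Fin d → ℝ) →L[ℝ] ℝ} (hf0 : f ≠ 0) {x : Fin d → ℝ}
    (hx : x ∈ P) (hf : Nor P f x) {σ : Fin d → Bool} (hσ : Pat σ x) :
    0 < ∑ i, max (sg (σ i) * co f i) 0 := by
  have h1 := h.bad_le hx hf hσ
  have h2 : 0 ≤ ∑ i, max (sg (σ i) * co f i) 0 := sum_nonneg fun i _ => le_max_right _ _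
  rcases h2.lt_or_eq with h3 | h3
  · exact h3
  · exfalso
    rw [← h3, mul_zero] at h1
    have h4 : ∑ i, |co f i| ≤ 0 := by
      have : ∑ i, |co f i| = ∑ i, max (sg (σ i) * co f i) 0 +
          ∑ i, max (-(sg (σ i) * co f i)) 0 := by
        rw [← sum_add_distrib]
        refine sum_congr rfl fun i _ => ?_
        rw [← abs_eq_max, abs_sg_mul]
      rw [this, ← h3]; linarith
    obtain ⟨i, hi⟩ := exists_co_ne hf0
    have h5 : |co f i| ≤ ∑ i, |co f i| :=
      single_le_sum (f := fun i => |co f i|) (fun i _ => abs_nonneg _) (mem_univ i)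
    have h6 : 0 < |co f i| := abs_pos.2 hi
    linarith

/-- the direction opposite to the pattern `σ`, with the weights `θ` -/
def dir (σ : Fin d → Bool) (θ : Fin d → ℝ) : Fin d → ℝ := fun i => -(sg (σ i) * θ i)

/-- Robust directions illuminate all points with the same pattern. -/
theorem Near.ill_dir (h : Near P δ) {x : Fin d → ℝ} (hx : x ∈ P) {σ : Fin d → Bool}
    (hσ : Pat σ x) {θ : Fin d → ℝ} {θ₀ : ℝ} (h0 : δ < θ₀) (hθ0 : ∀ i, θ₀ ≤ θ i)
    (hθ1 : ∀ i, θ i ≤ 1) : Ill P (dir σ θ) x := by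
  refine ill_of_normal h.conv h.int_nonempty hx fun f hf0 hf => ?_
  have h1 := h.bad_le hx hf hσ
  have h2 := h.good_pos hf0 hx hf hσ
  have h3 : f (dir σ θ) ≤ -(θ₀ * ∑ i, max (sg (σ i) * co f i) 0) +
      ∑ i, max (-(sg (σ i) * co f i)) 0 := by
    rw [apply_eq, mul_sum, ← sum_neg_distrib, ← sum_add_distrib]
    refine sum_le_sum fun i _ => ?_
    obtain ⟨a, ha⟩ : ∃ a, a = sg (σ i) * co f i := ⟨_, rfl⟩
    have e : co f i * dir σ θ i = -(a * θ i) := by rw [ha, dir]; ring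
    rw [e, ← ha]
    have h4 := hθ0 i
    have h5 := hθ1 i
    rcases le_total 0 a with h6 | h6
    · rw [max_eq_left h6, max_eq_right (by linarith)]; nlinarith
    · rw [max_eq_right h6, max_eq_left (by linarith)]; nlinarith [h.pos]
  nlinarith

/-- **The bound `2 ^ d`** for the ratio less than two. -/
theorem Near.cov (h : Near P δ) (hδ : δ < 1) : Cov (2 ^ d) P := by
  have h1 := cov_of_ill h.conv h.comp (ι := Fin d → Bool) (fun σ => dir σ fun _ => 1) (by
    intro x hx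
    obtain ⟨σ, hσ⟩ := exists_pat x
    exact ⟨σ, h.ill_dir hx hσ hδ (fun _ => le_rfl) (fun _ => le_rfl)⟩)
  simpa using h1

end Pool.Agent.V7H11.NC
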