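import Pool.Agent.V7H11.NC.Par
import Pool.Agent.H985.Sep
import Pool.Agent.H2R2.Frac.T9

set_option autoImplicit false

/-!
# From the coordinate space to Euclidean space, and duality
-/

namespace Pool.Agent.V7H11.NC

open Pool.Agent.W396.Il Finset Module
open scoped InnerProductSpace

variable {d : ℕ} {δ : ℝ}

section Transfer

variable {E : Type*} [NormedAddCommGroup E] [NormedSpace ℝ E]

/-- the affine coordinates -/
noncomputable def homeo (e : E ≃L[ℝ] (Fin d → ℝ)) (c : Fin d → ℝ) : (Fin d → ℝ) ≃ₜ E :=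
  (Homeomorph.addRight c).trans e.symm.toHomeomorph

theorem homeo_apply (e : E ≃L[ℝ] (Fin d → ℝ)) (c y : Fin d → ℝ) :
    homeo e c y = e.symm (y + c) := rfl

theorem cov_transfer (e : E ≃L[ℝ] (Fin d → ℝ)) (c : Fin d → ℝ) {M : Set E} {N : ℕ}
    (h : Cov N (homeo e c ⁻¹' M)) : Cov N M := by
  classical
  obtain ⟨T, hT, hcov⟩ := h
  refine ⟨T.image e.symm, card_image_le.trans hT, fun x hx => ?_⟩
  have hy : e x - c ∈ homeo e c ⁻¹' M := by
    show homeo e c (e x - c) ∈ M
    rw [homeo_apply, sub_add_cancel, e.symm_apply_apply]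
    exact hx
  obtain ⟨t, ht, z, hz, hzt⟩ := Set.mem_iUnion₂.1 (hcov hy)
  rw [← (homeo e c).preimage_interior] at hz
  refine Set.mem_iUnion₂.2 ⟨e.symm t, mem_image_of_mem _ ht, homeo e c z, hz, ?_⟩
  simp only at hzt ⊢
  rw [homeo_apply, ← map_add]
  have : t + (z + c) = e x := by rw [← add_assoc, hzt, sub_add_cancel]
  rw [this, e.symm_apply_apply]

theorem near_transfer (e : E ≃L[ℝ] (Fin d → ℝ)) (c : Fin d → ℝ) {M : Set E} (hM : Convex ℝ M)
    (hMc : IsCompact M) (hδ : 0 ≤ δ) (h1 : ∀ x, (∀ i, |e x i - c i| ≤ 1) → x ∈ M)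
    (h2 : ∀ x ∈ M, ∀ i, |e x i - c i| ≤ 1 + δ) : Near (homeo e c ⁻¹' M) δ where
  conv := by
    intro x hx y hy a b ha hb hab
    show homeo e c (a • x + b • y) ∈ M
    have : homeo e c (a • x + b • y) = a • homeo e c x + b • homeo e c y := by
      simp only [homeo_apply]
      rw [← map_smul, ← map_smul, ← map_add]
      congr 1
      rw [smul_add, smul_add]
      have : c = a • c + b • c := by rw [← add_smul, hab, one_smul]
      conv_lhs => rw [this]
      abel
    rw [this]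
    exact hM hx hy ha hb hab
  comp := (homeo e c).isCompact_preimage.2 hMc
  cube := by
    intro y hy
    show homeo e c y ∈ M
    refine h1 _ fun i => ?_
    rw [homeo_apply, e.apply_symm_apply, Pi.add_apply, add_sub_cancel_right]
    exact hy i
  bd := by
    intro y hy i
    have := h2 _ hy i
    rwa [homeo_apply, e.apply_symm_apply, Pi.add_apply, add_sub_cancel_right] at this
  pos := hδ

/-- a parallelotope in the affine coordinates -/
theorem par_transfer (e : E ≃L[ℝ] (Fin d → ℝ)) (c : Fin d → ℝ) {M : Set E}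
    (h : IsPar (homeo e c ⁻¹' M)) : ∃ (L : E ≃ₗ[ℝ] (Fin d → ℝ)) (m r : Fin d → ℝ),
      (∀ k, 0 < r k) ∧ M = {x | ∀ k, m k ≤ L x k ∧ L x k ≤ m k + r k} := by
  obtain ⟨N, m, M', hmM, hP⟩ := h
  refine ⟨e.toLinearEquiv.trans N, fun k => m k + N c k, fun k => M' k - m k,
    fun k => sub_pos.2 (hmM k), ?_⟩
  ext x
  have h1 : x ∈ M ↔ e x - c ∈ homeo e c ⁻¹' M := by
    show x ∈ M ↔ homeo e c (e x - c) ∈ M
    rw [homeo_apply, sub_add_cancel, e.symm_apply_apply]
  rw [h1, hP]
  show (∀ k, m k ≤ N (e x - c) k ∧ N (e x - c) k ≤ M' k) ↔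
    ∀ k, m k + N c k ≤ N (e x) k ∧ N (e x) k ≤ m k + N c k + (M' k - m k)
  refine forall_congr' fun k => ?_
  rw [map_sub, Pi.sub_apply]
  constructor <;> rintro ⟨h2, h3⟩ <;> constructor <;> linarith

end Transfer

/-- coordinates given by the inner products with linearly independent vectors -/
theorem exists_coords (v : Fin d → EuclideanSpace ℝ (Fin d)) (hv : LinearIndependent ℝ v) (h : Fin d → ℝ)
    (hh : ∀ i, 0 < h i) : ∃ e : EuclideanSpace ℝ (Fin d) ≃L[ℝ] (Fin d → ℝ), ∀ x i, e x i = ⟪v i, x⟫_ℝ / h i := by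
  obtain ⟨f, hf⟩ : ∃ f : EuclideanSpace ℝ (Fin d) →ₗ[ℝ] (Fin d → ℝ), ∀ x i, f x i = ⟪v i, x⟫_ℝ / h i := by
    refine ⟨LinearMap.pi fun i => (h i)⁻¹ • (innerₗ (EuclideanSpace ℝ (Fin d)) (v i)), fun x i => ?_⟩
    simp only [LinearMap.pi_apply, LinearMap.smul_apply, innerₗ_apply_apply, smul_eq_mul]
    rw [div_eq_inv_mul]
  have hspan : Submodule.span ℝ (Set.range v) = ⊤ := by
    apply hv.span_eq_top_of_card_eq_finrank'
    simp
  have hinj : Function.Injective f := by
    rw [← LinearMap.ker_eq_bot, LinearMap.ker_eq_bot']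
    intro x hx
    have h1 : ∀ i, ⟪v i, x⟫_ℝ = 0 := by
      intro i
      have := congrFun hx i
      rw [hf] at this
      exact (div_eq_zero_iff.1 this).resolve_right (hh i).ne'
    have h2 : x ∈ (Submodule.span ℝ (Set.range v))ᗮ := by
      rw [Submodule.mem_orthogonal]
      intro u hu
      induction hu using Submodule.span_induction with
      | mem y hy => obtain ⟨i, rfl⟩ := hy; exact h1 i
      | zero => exact inner_zero_left _
      | add y z _ _ h3 h4 => rw [inner_add_left, h3, h4, add_zero]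
      | smul a y _ h3 => rw [real_inner_smul_left, h3, mul_zero]
    rw [hspan, Submodule.top_orthogonal_eq_bot] at h2
    exact (Submodule.mem_bot ℝ).1 h2
  refine ⟨(LinearMap.linearEquivOfInjective f hinj (by simp)).toContinuousLinearEquiv,
    fun x i => ?_⟩
  rw [← hf]
  rfl

/-- coordinates with respect to linearly independent vectors -/
theorem exists_coords' (w : Fin d → EuclideanSpace ℝ (Fin d)) (hw : LinearIndependent ℝ w) :
    ∃ e : EuclideanSpace ℝ (Fin d) ≃L[ℝ] (Fin d → ℝ), ∀ x, x = ∑ i, e x i • w i := by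
  rcases Nat.eq_zero_or_pos d with rfl | hd
  · refine ⟨(LinearMap.linearEquivOfInjective (0 : EuclideanSpace ℝ (Fin 0) →ₗ[ℝ] (Fin 0 → ℝ))
      (fun x y _ => Subsingleton.elim x y) (by simp)).toContinuousLinearEquiv,
      fun x => Subsingleton.elim _ _⟩
  · have : Nonempty (Fin d) := ⟨⟨0, hd⟩⟩
    have hcard : Fintype.card (Fin d) = finrank ℝ (EuclideanSpace ℝ (Fin d)) := by simp
    refine ⟨(basisOfLinearIndependentOfCardEqFinrank hw hcard).equivFun.toContinuousLinearEquiv,
      fun x => ?_⟩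
    have := (basisOfLinearIndependentOfCardEqFinrank hw hcard).sum_equivFun x
    rw [coe_basisOfLinearIndependentOfCardEqFinrank] at this
    exact this.symm

/-- `N` hyperplanes separate all faces of `K` strictly from `o`. -/
def Sep (N : ℕ) (K : Set (EuclideanSpace ℝ (Fin d))) (o : EuclideanSpace ℝ (Fin d)) : Prop :=
  ∃ w : Fin N → EuclideanSpace ℝ (Fin d), ∃ b : Fin N → ℝ, ∀ u x₀ : EuclideanSpace ℝ (Fin d), u ≠ 0 → x₀ ∈ K →
    (∀ y ∈ K, ⟪u, y⟫_ℝ ≤ ⟪u, x₀⟫_ℝ) →
      ∃ i, ⟪w i, o⟫_ℝ < b i ∧ ∀ x ∈ K, ⟪u, x⟫_ℝ = ⟪u, x₀⟫_ℝ → b i < ⟪w i, x⟫_ℝ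

theorem sep_of_cov {K : Set (EuclideanSpace ℝ (Fin d))} {o : EuclideanSpace ℝ (Fin d)} {N : ℕ} (ho : o ∈ interior K)
    (h : Cov N (Pool.Agent.H985.Sep.polar K o)) : Sep N K o := by
  classical
  obtain ⟨T, hT, hc⟩ := h
  obtain ⟨H, hH, -, hsep⟩ := Pool.Agent.H985.Sep.separate ho T hc
  obtain ⟨g, hg⟩ : ∃ g : Fin N → EuclideanSpace ℝ (Fin d) × ℝ, g = fun i =>
      if h : i.val < H.card then (H.equivFin.symm ⟨i.val, h⟩ : EuclideanSpace ℝ (Fin d) × ℝ) else (0, 0) := ⟨_, rfl⟩
  refine ⟨fun i => (g i).1, fun i => (g i).2, fun u x₀ hu hx₀ hmax => ?_⟩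
  obtain ⟨h, hhH, h1, h2⟩ := hsep u x₀ hu hx₀ hmax
  obtain ⟨k, hk⟩ : ∃ k : Fin H.card, k = H.equivFin ⟨h, hhH⟩ := ⟨_, rfl⟩
  have hkN : k.val < N := lt_of_lt_of_le k.isLt (hH.trans hT)
  have hgk : g ⟨k.val, hkN⟩ = h := by
    rw [hg]
    simp only [k.isLt, dif_pos, Fin.eta]
    rw [hk, Equiv.symm_apply_apply]
  refine ⟨⟨k.val, hkN⟩, ?_, ?_⟩
  · show ⟪(g ⟨k.val, hkN⟩).1, o⟫_ℝ < (g ⟨k.val, hkN⟩).2
    rw [hgk]; exact h1
  · show ∀ x ∈ K, ⟪u, x⟫_ℝ = ⟪u, x₀⟫_ℝ → (g ⟨k.val, hkN⟩).2 < ⟪(g ⟨k.val, hkN⟩).1, x⟫_ℝ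
    rw [hgk]; exact h2

/-- **The separation form.** -/
theorem separation (hd : 1 ≤ d) {K : Set (EuclideanSpace ℝ (Fin d))} (hK : Convex ℝ K) (hKc : IsCompact K) {o : EuclideanSpace ℝ (Fin d)}
    (ho : o ∈ interior K) (v : Fin d → EuclideanSpace ℝ (Fin d)) (t : Fin d → ℝ) (hv : LinearIndependent ℝ v)
    (ht : ∀ i, 0 < t i) (hδ0 : 0 ≤ δ)
    (hKC : K ⊆ convexHull ℝ (⋃ i, ({o + v i, o - t i • v i} : Set (EuclideanSpace ℝ (Fin d)))))
    (hin : ∀ i, o + (1 + δ * ((1 + 1 / t i) / 2))⁻¹ • v i ∈ K ∧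
      o - (1 / t i + δ * ((1 + 1 / t i) / 2))⁻¹ • v i ∈ K) :
    (δ < 1 → Sep (2 ^ d) K o) ∧
    (δ ≤ 1 / 6 → Sep (2 ^ d - 1) K o ∨ ∃ (v' : Fin d → EuclideanSpace ℝ (Fin d)) (t' : Fin d → ℝ),
      LinearIndependent ℝ v' ∧ (∀ i, 0 < t' i) ∧
        K = convexHull ℝ (Set.range (fun i => o + v' i) ∪ Set.range (fun i => o - t' i • v' i)))
      := by
  obtain ⟨h, hh⟩ : ∃ h : Fin d → ℝ, ∀ i, h i = (1 + 1 / t i) / 2 := ⟨_, fun _ => rfl⟩
  have hti : ∀ i, 0 < 1 / t i := fun i => by have := ht i; positivity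
  have hh0 : ∀ i, 0 < h i := fun i => by rw [hh]; linarith [hti i]
  obtain ⟨e, he⟩ := exists_coords v hv h hh0
  obtain ⟨c, hc⟩ : ∃ c : Fin d → ℝ, ∀ i, c i = ((1 - 1 / t i) / 2) / h i := ⟨_, fun _ => rfl⟩
  obtain ⟨P, hP⟩ : ∃ P, P = Pool.Agent.H985.Sep.polar K o := ⟨_, rfl⟩
  have hmem : ∀ x, x ∈ P ↔ ∀ y ∈ K, ⟪x, y - o⟫_ℝ ≤ 1 := fun x => by rw [hP]; rfl
  have hco : ∀ x i, e x i - c i = (⟪v i, x⟫_ℝ - (1 - 1 / t i) / 2) / h i := fun x i => by
    rw [he, hc, ← sub_div]
  have hnear : Near (homeo e c ⁻¹' P) δ := by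
    refine near_transfer e c (by rw [hP]; exact Pool.Agent.H985.Sep.convex_polar K o)
      (by rw [hP]; exact Pool.Agent.H985.Sep.isCompact_polar ho) hδ0 (fun x hx => ?_) ?_
    · rw [hmem]
      have h1 : ∀ i, -(1 / t i) ≤ ⟪v i, x⟫_ℝ ∧ ⟪v i, x⟫_ℝ ≤ 1 := by
        intro i
        have h2 := hx i
        rw [hco, abs_div, abs_of_pos (hh0 i), div_le_one (hh0 i), hh, abs_le] at h2
        constructor <;> linarith [h2.1, h2.2]
      have h2 : convexHull ℝ (⋃ i, ({o + v i, o - t i • v i} : Set (EuclideanSpace ℝ (Fin d)))) ⊆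
          {y | ⟪x, y - o⟫_ℝ ≤ 1} := by
        refine convexHull_min ?_ ?_
        · refine Set.iUnion_subset fun i => ?_
          rintro y (rfl | rfl)
          · show ⟪x, o + v i - o⟫_ℝ ≤ 1
            rw [add_sub_cancel_left, real_inner_comm]
            exact (h1 i).2
          · show ⟪x, o - t i • v i - o⟫_ℝ ≤ 1
            rw [sub_sub_cancel_left, inner_neg_right, real_inner_smul_right, real_inner_comm]
            have h3 := (h1 i).1
            have h4 : t i * (1 / t i) = 1 := by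
              have := (ht i).ne'
              field_simp
            have h5 := mul_le_mul_of_nonneg_left h3 (ht i).le
            linarith
        · intro y hy z hz a b ha hb hab
          show ⟪x, a • y + b • z - o⟫_ℝ ≤ 1
          have h3 : a • y + b • z - o = a • (y - o) + b • (z - o) := by
            rw [smul_sub, smul_sub]
            have : o = a • o + b • o := by rw [← add_smul, hab, one_smul]
            conv_lhs => rw [this]
            abel
          rw [h3, inner_add_right, real_inner_smul_right, real_inner_smul_right]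
          have h4 : ⟪x, y - o⟫_ℝ ≤ 1 := hy
          have h5 : ⟪x, z - o⟫_ℝ ≤ 1 := hz
          nlinarith
      exact fun y hy => h2 (hKC hy)
    · intro x hx i
      rw [hmem] at hx
      obtain ⟨h1, h2⟩ := hin i
      rw [← hh] at h1 h2
      have h3 := hx _ h1
      have h4 := hx _ h2
      have hp1 : 0 < 1 + δ * h i := by have := mul_nonneg hδ0 (hh0 i).le; linarith
      have hp2 : 0 < 1 / t i + δ * h i := by
        have := mul_nonneg hδ0 (hh0 i).le
        linarith [hti i]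
      rw [add_sub_cancel_left, real_inner_smul_right, inv_mul_le_iff₀ hp1, mul_one,
        real_inner_comm] at h3
      rw [sub_sub_cancel_left, inner_neg_right, real_inner_smul_right, ← mul_neg,
        inv_mul_le_iff₀ hp2, mul_one, real_inner_comm] at h4
      rw [hco, abs_div, abs_of_pos (hh0 i), div_le_iff₀ (hh0 i), abs_le]
      have h5 := hh i
      constructor <;> nlinarith
  constructor
  · intro hδ
    refine sep_of_cov ho ?_
    rw [← hP]
    exact cov_transfer e c (hnear.cov hδ)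
  · intro hδ
    rcases hnear.main hδ with h1 | h1
    · left
      refine sep_of_cov ho ?_
      rw [← hP]
      exact cov_transfer e c h1
    · right
      obtain ⟨L, m, r, hr, hPL⟩ := par_transfer e c h1
      refine Pool.Agent.H2R2.Frac.cross_of_polar d hd K hKc hK o ho
        ((Pi.basisFun ℝ (Fin d)).map L.symm).dualBasis m r hr ?_
      have h2 : {x : EuclideanSpace ℝ (Fin d) | ∀ y ∈ K, ⟪x, y - o⟫_ℝ ≤ 1} = P := by
        ext x; exact (hmem x).symm
      rw [h2, hPL]
      ext x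
      simp

/-- **The covering form.** -/
theorem covering {M : Set (EuclideanSpace ℝ (Fin d))} (hM : Convex ℝ M) (hMc : IsCompact M) (c : EuclideanSpace ℝ (Fin d))
    (w : Fin d → EuclideanSpace ℝ (Fin d)) (hw : LinearIndependent ℝ w) (hδ0 : 0 ≤ δ)
    (h1 : ∀ a : Fin d → ℝ, (∀ i, |a i| ≤ 1) → c + ∑ i, a i • w i ∈ M)
    (h2 : ∀ x ∈ M, ∃ a : Fin d → ℝ, (∀ i, |a i| ≤ 1 + δ) ∧ x = c + ∑ i, a i • w i) :
    (δ < 1 → Cov (2 ^ d) M) ∧
    (δ ≤ 1 / 6 → Cov (2 ^ d - 1) M ∨ ∃ (p : EuclideanSpace ℝ (Fin d)) (w' : Fin d → EuclideanSpace ℝ (Fin d)), LinearIndependent ℝ w' ∧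
      M = {x | ∃ a : Fin d → ℝ, (∀ i, 0 ≤ a i ∧ a i ≤ 1) ∧ x = p + ∑ i, a i • w' i}) := by
  obtain ⟨e, he⟩ := exists_coords' w hw
  have hsum : ∀ a : Fin d → ℝ, e (∑ i, a i • w i) = a := by
    intro a
    have h3 := he (∑ i, a i • w i)
    have h4 : ∑ i, (a i - e (∑ i, a i • w i) i) • w i = 0 := by
      simp only [sub_smul, sum_sub_distrib]
      rw [← h3, sub_self]
    funext i
    have := Fintype.linearIndependent_iff.1 hw _ h4 i
    linarith
  have hnear : Near (homeo e (e c) ⁻¹' M) δ := by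
    refine near_transfer e (e c) hM hMc hδ0 (fun x hx => ?_) fun x hx i => ?_
    · have h3 := h1 (fun i => e x i - e c i) hx
      have h4 : c + ∑ i, (e x i - e c i) • w i = x := by
        simp only [sub_smul, sum_sub_distrib]
        rw [← he, ← he]; abel
      rwa [h4] at h3
    · obtain ⟨a, ha, rfl⟩ := h2 x hx
      rw [map_add, hsum, Pi.add_apply, add_sub_cancel_left]
      exact ha i
  constructor
  · intro hδ
    exact cov_transfer e (e c) (hnear.cov hδ)
  · intro hδ
    rcases hnear.main hδ with h3 | h3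
    · exact Or.inl (cov_transfer e (e c) h3)
    · right
      obtain ⟨L, m, r, hr, hPL⟩ := par_transfer e (e c) h3
      refine ⟨L.symm m, fun i => L.symm (Pi.single i (r i)), ?_, ?_⟩
      · rw [Fintype.linearIndependent_iff]
        intro g hg i
        have h4 := congrArg L hg
        rw [map_zero, map_sum] at h4
        have h5 := congrFun h4 i
        simp only [map_smul, LinearEquiv.apply_symm_apply, Finset.sum_apply, Pi.smul_apply,
          smul_eq_mul, Pi.zero_apply] at h5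
        rw [sum_eq_single i (fun j _ hj => by rw [Pi.single_eq_of_ne (Ne.symm hj), mul_zero])
          (fun h => absurd (mem_univ i) h), Pi.single_eq_same] at h5
        exact (mul_eq_zero.1 h5).resolve_right (hr i).ne'
      · have hval : ∀ (a : Fin d → ℝ) (k : Fin d),
            L (L.symm m + ∑ i, a i • L.symm (Pi.single i (r i))) k = m k + a k * r k := by
          intro a k
          rw [map_add, map_sum, Pi.add_apply, Finset.sum_apply, LinearEquiv.apply_symm_apply]
          simp only [map_smul, LinearEquiv.apply_symm_apply, Pi.smul_apply, smul_eq_mul]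
          rw [sum_eq_single k (fun j _ hj => by rw [Pi.single_eq_of_ne (Ne.symm hj), mul_zero])
            (fun h => absurd (mem_univ k) h), Pi.single_eq_same]
        rw [hPL]
        ext x
        constructor
        · intro hx
          refine ⟨fun k => (L x k - m k) / r k, fun k => ⟨?_, ?_⟩, ?_⟩
          · exact div_nonneg (by linarith [(hx k).1]) (hr k).le
          · rw [div_le_one (hr k)]; linarith [(hx k).2]
          · apply L.injective
            funext k
            rw [hval, div_mul_cancel₀ _ (hr k).ne']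
            ring
        · rintro ⟨a, ha, rfl⟩ k
          rw [hval]
          have h4 := ha k
          have h5 := hr k
          constructor
          · nlinarith [mul_nonneg h4.1 h5.le]
          · nlinarith [mul_le_mul_of_nonneg_right h4.2 h5.le]

end Pool.Agent.V7H11.NC
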