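import Pool.Agent.V7H11.NC.Merge

set_option autoImplicit false

/-!
# Either two corners can be merged, or all corners lie in two parallel supporting hyperplanes
-/

namespace Pool.Agent.V7H11.NC

open Pool.Agent.W396.Il Finset

variable {d : ℕ} {P : Set (Fin d → ℝ)} {δ : ℝ}

/-- set the sign at `k` -/
def put (σ : Fin d → Bool) (k : Fin d) (b : Bool) : Fin d → Bool := fun j => if j = k then b else σ j

theorem put_self (σ : Fin d → Bool) (k : Fin d) (b : Bool) : put σ k b k = b := by simp [put]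
theorem put_ne (σ : Fin d → Bool) {k j : Fin d} (b : Bool) (h : j ≠ k) : put σ k b j = σ j := by
  simp [put, h]

theorem flip_put (σ : Fin d → Bool) (k : Fin d) : flip (put σ k true) k = put σ k false := by
  funext j
  by_cases h : j = k
  · subst h; rw [flip_self, put_self, put_self]; rfl
  · rw [flip_ne _ h, put_ne _ _ h, put_ne _ _ h]

theorem put_eq (σ : Fin d → Bool) (k : Fin d) : put σ k (σ k) = σ := by
  funext j
  by_cases h : j = k
  · subst h; rw [put_self]
  · rw [put_ne _ _ h]

/-- two parallel supporting hyperplanes which contain all corners -/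
def FineAt (P : Set (Fin d → ℝ)) (X : (Fin d → Bool) → Fin d → ℝ) (k : Fin d) : Prop :=
  ∃ (n : (Fin d → ℝ) →L[ℝ] ℝ) (m M : ℝ), m < M ∧ (∀ x ∈ P, m ≤ n x ∧ n x ≤ M) ∧
    ∀ σ, n (X σ) = if σ k then M else m

/-- supporting functionals -/
theorem exists_support (hP : Convex ℝ P) (hPi : (interior P).Nonempty) {T : Fin d → ℝ}
    (hT : T ∉ interior P) : ∃ f : (Fin d → ℝ) →L[ℝ] ℝ, f ≠ 0 ∧ ∀ x ∈ P, f x ≤ f T := by
  obtain ⟨f, hf⟩ := geometric_hahn_banach_open_point hP.interior isOpen_interior hT
  refine ⟨f, ?_, ?_⟩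
  · rintro rfl
    obtain ⟨a, ha⟩ := hPi
    have := hf a ha
    simp at this
  · have hcl : P ⊆ closure (interior P) := by
      rw [hP.closure_interior_eq_closure_of_nonempty_interior hPi]
      exact subset_closure
    have : closure (interior P) ⊆ {x | f x ≤ f T} :=
      closure_minimal (fun x hx => (hf x hx).le) (isClosed_le (by fun_prop) continuous_const)
    exact fun x hx => this (hcl hx)

/-- The point of the body on a half-axis, and a supporting functional there. -/
theorem Near.exists_top (h : Near P δ) (b : Bool) (k : Fin d) :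
    ∃ (T : Fin d → ℝ) (n : (Fin d → ℝ) →L[ℝ] ℝ), T ∈ P ∧ (∀ i, i ≠ k → T i = 0) ∧
      1 ≤ sg b * T k ∧ sg b * co n k = 1 ∧ ∀ x ∈ P, n x ≤ n T := by
  obtain ⟨e, he⟩ : ∃ e : Fin d → ℝ, e = Pi.single k (sg b) := ⟨_, rfl⟩
  have hek : e k = sg b := by rw [he, Pi.single_eq_same]
  have hei : ∀ i, i ≠ k → e i = 0 := fun i hi => by rw [he, Pi.single_eq_of_ne hi]
  have heP : e ∈ P := by
    refine h.cube e fun i => ?_
    rcases eq_or_ne i k with rfl | hi
    · rw [hek, abs_sg]
    · rw [hei i hi, abs_zero]; exact zero_le_one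
  have hcl : IsClosed {x : Fin d → ℝ | ∀ i, i ≠ k → x i = 0} := by
    have : {x : Fin d → ℝ | ∀ i, i ≠ k → x i = 0} = ⋂ i, {x | i ≠ k → x i = 0} := by
      ext x; simp
    rw [this]
    refine isClosed_iInter fun i => ?_
    by_cases hi : i = k
    · simp [hi]
    · simp only [ne_eq, hi, not_false_eq_true, true_implies]
      exact isClosed_eq (by fun_prop) continuous_const
  obtain ⟨T, hT, hmax⟩ := (h.comp.inter_right hcl).exists_isMaxOn ⟨e, heP, hei⟩
    (f := fun x : Fin d → ℝ => sg b * x k) (by fun_prop)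
  have hTmax : ∀ x ∈ P, (∀ i, i ≠ k → x i = 0) → sg b * x k ≤ sg b * T k :=
    fun x hx hx0 => hmax ⟨hx, hx0⟩
  have h1 : 1 ≤ sg b * T k := by
    have := hTmax e heP hei
    rwa [hek, sg_mul] at this
  have hTi : T ∉ interior P := by
    intro hint
    obtain ⟨ε, hε, hball⟩ := Metric.isOpen_iff.1 isOpen_interior T hint
    have h2 : T + (ε / 2) • e ∈ P := by
      refine interior_subset (hball ?_)
      rw [Metric.mem_ball, dist_eq_norm, add_sub_cancel_left, norm_smul, Real.norm_eq_abs,
        abs_of_pos (half_pos hε)]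
      have : ‖e‖ ≤ 1 := by
        rw [pi_norm_le_iff_of_nonneg zero_le_one]
        intro i
        rw [Real.norm_eq_abs]
        rcases eq_or_ne i k with rfl | hi
        · rw [hek, abs_sg]
        · rw [hei i hi, abs_zero]; exact zero_le_one
      nlinarith
    have h3 := hTmax _ h2 fun i hi => by
      rw [Pi.add_apply, Pi.smul_apply, hT.2 i hi, hei i hi, smul_zero, add_zero]
    rw [Pi.add_apply, Pi.smul_apply, hek, smul_eq_mul, mul_add, mul_left_comm, sg_mul] at h3
    linarith
  obtain ⟨f, hf0, hf⟩ := exists_support h.conv h.int_nonempty hTi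
  have h2 : Nor P f T := hf
  have h3 := h.sum_abs_le h2
  have h4 : f T = (sg b * co f k) * (sg b * T k) := by
    rw [apply_eq, ← add_sum_erase univ _ (mem_univ k)]
    have : ∑ i ∈ univ.erase k, co f i * T i = 0 :=
      sum_eq_zero fun i hi => by rw [hT.2 i (mem_erase.1 hi).1, mul_zero]
    rw [this, add_zero]
    have := sg_mul b
    linear_combination (-(co f k * T k)) * this
  have h5 : 0 < ∑ i, |co f i| := by
    obtain ⟨i, hi⟩ := exists_co_ne hf0
    exact (abs_pos.2 hi).trans_le
      (single_le_sum (f := fun i => |co f i|) (fun _ _ => abs_nonneg _) (mem_univ i))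
  have h6 : 0 < sg b * co f k := by
    by_contra hcon
    push Not at hcon
    have := mul_nonpos_of_nonpos_of_nonneg hcon (by linarith : 0 ≤ sg b * T k)
    linarith
  refine ⟨T, (sg b * co f k)⁻¹ • f, hT.1, hT.2, h1, ?_, fun x hx => ?_⟩
  · rw [co_smul, mul_left_comm]
    exact inv_mul_cancel₀ h6.ne'
  · exact (Nor.smul h2 (c := (sg b * co f k)⁻¹) (by positivity)) x hx

/-- The hull of perturbed corners contains a cube, up to the `k`-th coordinate. -/
theorem exists_hull {c : ℝ} (k : Fin d) (x : (Fin d → Bool) → Fin d → ℝ)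
    (hx : ∀ l i, i ≠ k → c ≤ sg (l i) * x l i) (v : Fin d → ℝ) (hv : ∀ i, i ≠ k → |v i| ≤ c) :
    ∃ V ∈ convexHull ℝ (Set.range x), ∀ i, i ≠ k → V i = v i := by
  obtain ⟨π, hπ⟩ : ∃ π : (Fin d → ℝ) →L[ℝ] (Fin d → ℝ), ∀ y i, π y i = if i = k then 0 else y i := by
    refine ⟨LinearMap.toContinuousLinearMap
      { toFun := fun y i => if i = k then 0 else y i
        map_add' := fun y z => by funext i; by_cases h : i = k <;> simp [h]
        map_smul' := fun a y => by funext i; by_cases h : i = k <;> simp [h] }, fun y i => rfl⟩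
  have hcomp : IsCompact (π '' convexHull ℝ (Set.range x)) :=
    ((Set.finite_range x).isCompact_convexHull ℝ).image π.continuous
  have hconv : Convex ℝ (π '' convexHull ℝ (Set.range x)) :=
    (convex_convexHull ℝ _).linear_image π.toLinearMap
  have hmem : π v ∈ π '' convexHull ℝ (Set.range x) := by
    by_contra hcon
    obtain ⟨f, u, h1, h2⟩ := geometric_hahn_banach_closed_point hconv hcomp.isClosed hcon
    obtain ⟨l, hl⟩ : ∃ l : Fin d → Bool, ∀ i, l i = decide (0 ≤ co f i) := ⟨_, fun _ => rfl⟩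
    have h3 := h1 (π (x l)) ⟨x l, subset_convexHull ℝ _ (Set.mem_range_self l), rfl⟩
    have h4 : f (π v) ≤ f (π (x l)) := by
      rw [apply_eq, apply_eq]
      refine sum_le_sum fun i _ => ?_
      rw [hπ, hπ]
      rcases eq_or_ne i k with hi | hi
      · rw [if_pos hi, if_pos hi]
      · rw [if_neg hi, if_neg hi]
        have h5 := abs_le.1 (hv i hi)
        have h6 := hx l i hi
        rw [hl] at h6
        rcases le_or_gt 0 (co f i) with h7 | h7
        · simp only [h7, decide_true, sg_true, one_mul] at h6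
          exact mul_le_mul_of_nonneg_left (by linarith) h7
        · simp only [not_le.2 h7, decide_false, sg_false] at h6
          exact mul_le_mul_of_nonpos_left (by linarith) h7.le
    linarith
  obtain ⟨V, hV, hVv⟩ := hmem
  refine ⟨V, hV, fun i hi => ?_⟩
  have := congrFun hVv i
  rwa [hπ, hπ, if_neg hi, if_neg hi] at this

/-- **Dichotomy** in the direction `k`. -/
theorem Near.fine_or_cov (h : Near P δ) (hδ : δ ≤ 1 / 6)
    (X : (Fin d → Bool) → Fin d → ℝ) (hX : ∀ σ, X σ ∈ P) (hN : ∀ σ i, NN P (X σ) σ i)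
    (k : Fin d) : Cov (2 ^ d - 1) P ∨ FineAt P X k := by
  have hδ0 := h.pos
  obtain ⟨p, hp⟩ : ∃ p : (Fin d → Bool) → Fin d → ℝ, ∀ σ, p σ = X (put σ k true) :=
    ⟨_, fun _ => rfl⟩
  obtain ⟨q, hq⟩ : ∃ q : (Fin d → Bool) → Fin d → ℝ, ∀ σ, q σ = X (put σ k false) :=
    ⟨_, fun _ => rfl⟩
  have hpP : ∀ σ, p σ ∈ P := fun σ => by rw [hp]; exact hX _
  have hqP : ∀ σ, q σ ∈ P := fun σ => by rw [hq]; exact hX _
  have hloc : ∀ σ i, 67 / 75 ≤ sg (σ i) * X σ i ∧ sg (σ i) * X σ i ≤ 7 / 6 := by
    intro σ i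
    have := h.loc (hX σ) (hN σ i)
    constructor <;> linarith [this.1, this.2]
  have hpl : ∀ σ i, i ≠ k → 67 / 75 ≤ sg (σ i) * p σ i ∧ sg (σ i) * p σ i ≤ 7 / 6 := by
    intro σ i hi
    have := hloc (put σ k true) i
    rwa [put_ne _ _ hi, ← hp] at this
  have hql : ∀ σ i, i ≠ k → 67 / 75 ≤ sg (σ i) * q σ i ∧ sg (σ i) * q σ i ≤ 7 / 6 := by
    intro σ i hi
    have := hloc (put σ k false) i
    rwa [put_ne _ _ hi, ← hq] at this
  have hpk : ∀ σ, 67 / 75 ≤ p σ k ∧ p σ k ≤ 7 / 6 := by
    intro σ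
    have := hloc (put σ k true) k
    rwa [put_self, ← hp, sg_true, one_mul] at this
  have hqk : ∀ σ, -(7 / 6) ≤ q σ k ∧ q σ k ≤ -(67 / 75) := by
    intro σ
    have := hloc (put σ k false) k
    rw [put_self, ← hq, sg_false] at this
    constructor <;> linarith [this.1, this.2]
  obtain ⟨T, n, hT, hT0, hTk, hnk, hn⟩ := h.exists_top true k
  obtain ⟨Z, n', hZ, hZ0, hZk, hnk', hn'⟩ := h.exists_top false k
  rw [sg_true, one_mul] at hTk hnk
  rw [sg_false] at hZk hnk'
  have hval : ∀ (f : (Fin d → ℝ) →L[ℝ] ℝ) (x : Fin d → ℝ), (∀ i, i ≠ k → x i = 0) →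
      f x = co f k * x k := by
    intro f x hx
    rw [apply_eq, ← add_sum_erase univ _ (mem_univ k)]
    have : ∑ i ∈ univ.erase k, co f i * x i = 0 :=
      sum_eq_zero fun i hi => by rw [hx i (mem_erase.1 hi).1, mul_zero]
    rw [this, add_zero]
  have hnT : n T = T k := by rw [hval n T hT0, hnk, one_mul]
  have hnZ : n Z = Z k := by rw [hval n Z hZ0, hnk, one_mul]
  have hnZ' : n' Z = -Z k := by rw [hval n' Z hZ0]; linear_combination (-Z k) * hnk'
  -- the sum of the two functionals
  obtain ⟨R, hR⟩ : ∃ R, R = ∑ i, |co (n + n') i| := ⟨_, rfl⟩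
  have hR0 : 0 ≤ R := by rw [hR]; exact sum_nonneg fun _ _ => abs_nonneg _
  have hψk : co (n + n') k = 0 := by
    show co n k + co n' k = 0
    linarith
  have hψ : ∀ x ∈ P, n Z - n x ≤ -(n + n') x := by
    intro x hx
    have h1 := hn' x hx
    show n Z - n x ≤ -(n x + n' x)
    linarith
  have hψle : ∀ x ∈ P, -(n + n') x ≤ 7 / 6 * R := by
    intro x hx
    rw [apply_eq, hR, mul_sum, ← sum_neg_distrib]
    refine sum_le_sum fun i _ => ?_
    calc -(co (n + n') i * x i) ≤ |co (n + n') i * x i| := neg_le_abs _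
      _ = |x i| * |co (n + n') i| := by rw [abs_mul, mul_comm]
      _ ≤ _ := mul_le_mul_of_nonneg_right ((h.bd x hx i).trans (by linarith)) (abs_nonneg _)
  obtain ⟨σ₁, hσ₁⟩ : ∃ l : Fin d → Bool, ∀ i, l i = decide (0 ≤ co (n + n') i) :=
    ⟨_, fun _ => rfl⟩
  have hψσ : -(n + n') (q σ₁) ≤ -(67 / 75 * R) := by
    rw [apply_eq, hR, mul_sum, neg_le_neg_iff]
    refine sum_le_sum fun i _ => ?_
    rcases eq_or_ne i k with rfl | hi
    · rw [hψk]; simp
    · have h6 := (hql σ₁ i hi).1
      rw [hσ₁] at h6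
      rcases le_or_gt 0 (co (n + n') i) with h7 | h7
      · simp only [h7, decide_true, sg_true, one_mul] at h6
        rw [abs_of_nonneg h7, mul_comm]
        exact mul_le_mul_of_nonneg_left h6 h7
      · simp only [not_le.2 h7, decide_false, sg_false] at h6
        rw [abs_of_neg h7]
        nlinarith
  -- the largest deficit
  obtain ⟨σ₀, -, hσ₀⟩ := exists_max_image univ (fun σ => n T - n (p σ)) univ_nonempty
  obtain ⟨Γ, hΓ⟩ : ∃ Γ, Γ = n T - n (p σ₀) := ⟨_, rfl⟩
  have hΓσ : ∀ σ, n T - n (p σ) ≤ Γ := fun σ => by rw [hΓ]; exact hσ₀ σ (mem_univ σ)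
  have hΓ0 : 0 ≤ Γ := by rw [hΓ]; exact sub_nonneg.2 (hn _ (hpP σ₀))
  -- deep translates of the edges
  have hW : ∀ σ, ∃ W ∈ P, (∀ i, i ≠ k → W i = p σ i - q σ i) ∧ n T - 41 / 134 * Γ ≤ n W := by
    intro σ
    obtain ⟨V, hV, hVv⟩ := exists_hull (c := 67 / 75) k p (fun l i hi => (hpl l i hi).1)
      (fun i => 134 / 41 * (p σ i - q σ i)) (fun i hi => by
        rw [← abs_sg_mul (σ i)]
        have h1 := hpl σ i hi
        have h2 := hql σ i hi
        rw [abs_le]
        constructor <;> nlinarith [h1.1, h1.2, h2.1, h2.2])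
    have hVP : V ∈ P := convexHull_min (by rintro _ ⟨l, rfl⟩; exact hpP l) h.conv hV
    have hVn : n T - Γ ≤ n V := by
      have h1 : convexHull ℝ (Set.range p) ⊆ {x | n T - Γ ≤ n x} := by
        refine convexHull_min ?_ ?_
        · rintro _ ⟨l, rfl⟩
          have := hΓσ l
          show n T - Γ ≤ n (p l)
          linarith
        · exact convex_halfSpace_ge n.toLinearMap.isLinear _
      exact h1 hV
    refine ⟨(93 / 134 : ℝ) • T + (41 / 134 : ℝ) • V,
      h.conv hT hVP (by norm_num) (by norm_num) (by norm_num), fun i hi => ?_, ?_⟩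
    · rw [Pi.add_apply, Pi.smul_apply, Pi.smul_apply, hT0 i hi, hVv i hi, smul_zero, zero_add,
        smul_eq_mul]
      ring
    · rw [map_add, map_smul, map_smul, smul_eq_mul, smul_eq_mul]
      linarith
  choose W hWP hWi hWn using hW
  by_cases hcase : ∃ s, p s k - q s k < W s k - Z k
  · -- merging
    left
    obtain ⟨s, hs⟩ := hcase
    obtain ⟨r, hr1⟩ : ∃ r, r = (W s k - Z k) - (p s k - q s k) := ⟨_, rfl⟩
    have hr0 : 0 < r := by rw [hr1]; linarith
    have hWk2 : W s k ≤ 7 / 6 := (le_abs_self _).trans ((h.bd _ (hWP s) k).trans (by linarith))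
    have hZk2 : -(7 / 6) ≤ Z k := by
      have := (abs_le.1 (h.bd Z hZ k)).1
      linarith
    have hWk1 : 0 < W s k := by linarith [(hpk s).1, (hqk s).2]
    have hr3 : r ≤ 41 / 75 := by
      rw [hr1]
      linarith [(hpk s).1, (hqk s).2]
    have hek : ∀ i, i ≠ k → (Pi.single k (1 : ℝ) : Fin d → ℝ) i = 0 := fun i hi =>
      Pi.single_eq_of_ne hi _
    have hZint : Z + (r / 2) • (Pi.single k (1 : ℝ) : Fin d → ℝ) ∈ interior P := by
      refine Ill.shrink h.conv hZ (v := Pi.single k (1 : ℝ)) (ε := 1) one_pos ?_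
        (half_pos hr0) (by linarith)
      refine h.mem_int fun i => ?_
      rw [one_smul, Pi.add_apply]
      rcases eq_or_ne i k with rfl | hi
      · rw [Pi.single_eq_same, abs_lt]
        constructor <;> linarith
      · rw [hek i hi, add_zero, hZ0 i hi, abs_zero]; exact one_pos
    have hWint : W s + (r / 2) • (-Pi.single k (1 : ℝ) : Fin d → ℝ) ∈ interior P := by
      refine Ill.shrink h.conv (hWP s) (v := -Pi.single k (1 : ℝ)) (ε := 1) one_pos ?_
        (half_pos hr0) (by linarith)
      refine h.mem_int fun i => ?_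
      rw [one_smul, Pi.add_apply, Pi.neg_apply]
      rcases eq_or_ne i k with rfl | hi
      · rw [Pi.single_eq_same, abs_lt]
        constructor <;> linarith
      · rw [hek i hi, neg_zero, add_zero, hWi s i hi, ← abs_sg_mul (s i), abs_lt]
        have h1 := hpl s i hi
        have h2 := hql s i hi
        constructor <;> nlinarith [h1.1, h1.2, h2.1, h2.2]
    refine h.cov_of_merge hδ (σ := put s k true) (k := k) (p := p s) (q := q s)
      (t := Z - q s + (r / 2) • (Pi.single k (1 : ℝ) : Fin d → ℝ))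
      (hpP s) (hqP s) (fun i => by rw [hp]; exact hN _ i) (fun i => by
        rw [flip_put, hq]; exact hN _ i) ?_ ?_ (fun i hi => ?_) ?_
    · convert hWint using 1
      funext i
      simp only [Pi.add_apply, Pi.sub_apply, Pi.smul_apply, Pi.neg_apply, smul_eq_mul]
      rcases eq_or_ne i k with rfl | hi
      · rw [Pi.single_eq_same, hr1]; ring
      · rw [hek i hi, hWi s i hi, hZ0 i hi]; ring
    · convert hZint using 1
      abel
    · simp only [Pi.add_apply, Pi.sub_apply, Pi.smul_apply, smul_eq_mul]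
      rw [hek i hi, mul_zero, add_zero, hZ0 i hi, put_ne _ _ hi, zero_sub, mul_neg]
      have h2 := hql s i hi
      constructor <;> linarith [h2.1, h2.2]
    · simp only [Pi.add_apply, Pi.sub_apply, Pi.smul_apply, smul_eq_mul]
      rw [Pi.single_eq_same, mul_one, abs_le]
      constructor <;> linarith [(hqk s).1, (hqk s).2]
  · -- all corners are on two parallel hyperplanes
    right
    push Not at hcase
    have key : ∀ σ, n (W σ) - n Z ≤ n (p σ) - n (q σ) := by
      intro σ
      have h1 : n (p σ - q σ - (W σ - Z)) = (p σ k - q σ k) - (W σ k - Z k) := by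
        rw [hval n _ fun i hi => by
          simp only [Pi.sub_apply]
          rw [hWi σ i hi, hZ0 i hi]; ring]
        rw [hnk, one_mul]
        simp only [Pi.sub_apply]
      have h2 := hcase σ
      rw [map_sub, map_sub, map_sub] at h1
      linarith
    have hmain : ∀ σ, n T - n (p σ) - 41 / 134 * Γ ≤ n Z - n (q σ) := fun σ => by
      linarith [key σ, hWn σ]
    have hnp : ∀ σ, 0 ≤ n T - n (p σ) := fun σ => sub_nonneg.2 (hn _ (hpP σ))
    have hRΓ : 67 / 75 * R ≤ 41 / 134 * Γ := by
      linarith [hmain σ₁, hψ _ (hqP σ₁), hnp σ₁]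
    have hΓR : Γ ≤ 41 / 134 * Γ + 7 / 6 * R := by
      have h1 := hmain σ₀
      rw [← hΓ] at h1
      linarith [hψ _ (hqP σ₀), hψle _ (hqP σ₀)]
    have hΓz : Γ = 0 := by linarith
    have hRz : R = 0 := by linarith
    have hψ0 : ∀ x ∈ P, n Z ≤ n x := by
      intro x hx
      have := hψ x hx
      have h1 := hψle x hx
      rw [hRz, mul_zero] at h1
      linarith
    refine ⟨n, n Z, n T, by linarith, fun x hx => ⟨hψ0 x hx, hn x hx⟩, fun σ => ?_⟩
    cases hσ : σ k
    · simp only [Bool.false_eq_true, if_false]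
      have h1 := hmain σ
      have h2 := hnp σ
      have h3 := hψ0 _ (hqP σ)
      rw [hΓz, mul_zero] at h1
      have h4 : q σ = X σ := by
        have := put_eq σ k
        rw [hσ] at this
        rw [hq, this]
      rw [← h4]
      linarith
    · simp only [if_true]
      have h1 := hΓσ σ
      have h2 := hnp σ
      rw [hΓz] at h1
      have h4 : p σ = X σ := by
        have := put_eq σ k
        rw [hσ] at this
        rw [hp, this]
      rw [← h4]
      linarith

end Pool.Agent.V7H11.NC
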