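import Pool.Agent.V7H11.NC.Vert

set_option autoImplicit false

/-!
# Merging two neighbouring corners
-/

namespace Pool.Agent.V7H11.NC

open Pool.Agent.W396.Il Finset

variable {d : ℕ} {P : Set (Fin d → ℝ)} {δ : ℝ}

/-- A point `x` with normals close to all coordinate directions but the `k`-th lies in a thin double
cone around the `k`-th axis with apex at a corner `p`. -/
theorem close_aux {x p : Fin d → ℝ} (hx : x ∈ P) (hp : p ∈ P) {σ ρ : Fin d → Bool} {k : Fin d}
    (hρ : ∀ i, i ≠ k → ρ i = σ i) (hpN : ∀ i, NN P p σ i) (hxN : ∀ i, i ≠ k → NN P x ρ i) :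
    x = p ∨ ∃ M : ℝ, 0 < M ∧ sg (σ k) * (x k - p k) = -M ∧
      ∀ i, i ≠ k → |x i - p i| ≤ 16 / 25 * M := by
  rcases eq_or_ne x p with hxp | hxp
  · exact Or.inl hxp
  right
  obtain ⟨M, hM⟩ : ∃ M, M = ‖x - p‖ := ⟨_, rfl⟩
  have hM0 : 0 < M := by rw [hM]; exact norm_pos_iff.2 (sub_ne_zero.2 hxp)
  have hz : ∀ i, |x i - p i| ≤ M := fun i => by
    rw [hM]; exact norm_le_pi_norm (x - p) i
  have hsum : ∀ (f : (Fin d → ℝ) →L[ℝ] ℝ) (i : Fin d), ∑ j ∈ univ.erase i, |co f j| ≤ 16 / 25 →
      |∑ j ∈ univ.erase i, co f j * (x j - p j)| ≤ 16 / 25 * M := by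
    intro f i hf
    refine (abs_sum_le_sum_abs _ _).trans ?_
    calc ∑ j ∈ univ.erase i, |co f j * (x j - p j)|
        ≤ ∑ j ∈ univ.erase i, |co f j| * M := sum_le_sum fun j _ => by
          rw [abs_mul]; exact mul_le_mul_of_nonneg_left (hz j) (abs_nonneg _)
      _ = (∑ j ∈ univ.erase i, |co f j|) * M := by rw [sum_mul]
      _ ≤ _ := mul_le_mul_of_nonneg_right hf hM0.le
  have hexp : ∀ (f : (Fin d → ℝ) →L[ℝ] ℝ) (i : Fin d), f x - f p =
      co f i * (x i - p i) + ∑ j ∈ univ.erase i, co f j * (x j - p j) := by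
    intro f i
    rw [← map_sub, apply_eq, ← add_sum_erase univ _ (mem_univ i)]
    rfl
  have hup : ∀ i, sg (σ i) * (x i - p i) ≤ 16 / 25 * M := by
    intro i
    obtain ⟨f, hf, h1, h2⟩ := hpN i
    have h3 := hf x hx
    have h4 := abs_le.1 (hsum f i h2)
    have h5 := hexp f i
    have h6 : co f i = sg (σ i) := by
      have := sg_mul_mul (σ i) (co f i)
      rw [h1, mul_one] at this
      exact this.symm
    rw [h6] at h5
    linarith [h4.1]
  have hlo : ∀ i, i ≠ k → -(16 / 25 * M) ≤ sg (σ i) * (x i - p i) := by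
    intro i hi
    obtain ⟨f, hf, h1, h2⟩ := hxN i hi
    have h3 := hf p hp
    have h4 := abs_le.1 (hsum f i h2)
    have h5 := hexp f i
    have h6 : co f i = sg (σ i) := by
      have := sg_mul_mul (ρ i) (co f i)
      rw [h1, mul_one, hρ i hi] at this
      exact this.symm
    rw [h6] at h5
    linarith [h4.2]
  have hne : ∀ i, i ≠ k → |x i - p i| ≤ 16 / 25 * M := by
    intro i hi
    rw [← abs_sg_mul (σ i)]
    exact abs_le.2 ⟨hlo i hi, hup i⟩
  refine ⟨M, hM0, ?_, hne⟩
  -- the maximum is attained at `k`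
  have hk : |x k - p k| = M := by
    refine le_antisymm (hz k) ?_
    by_contra hcon
    push Not at hcon
    obtain ⟨c, hc⟩ : ∃ c, c = max |x k - p k| (16 / 25 * M) := ⟨_, rfl⟩
    have hcM : c < M := by rw [hc]; exact max_lt hcon (by linarith)
    have hc0 : 0 ≤ c := by rw [hc]; exact (abs_nonneg _).trans (le_max_left _ _)
    have : ‖x - p‖ ≤ c := by
      rw [pi_norm_le_iff_of_nonneg hc0]
      intro i
      show |x i - p i| ≤ c
      rcases eq_or_ne i k with rfl | hi
      · rw [hc]; exact le_max_left _ _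
      · rw [hc]; exact (hne i hi).trans (le_max_right _ _)
    rw [← hM] at this
    linarith
  have h1 := hup k
  rw [← abs_sg_mul (σ k)] at hk
  rcases le_total 0 (sg (σ k) * (x k - p k)) with h2 | h2
  · rw [abs_of_nonneg h2] at hk; linarith
  · rw [abs_of_nonpos h2] at hk; linarith

/-- A direction which leads from two neighbouring corners into the interior, and deep into the body
in the other coordinates, illuminates all points between them which are not illuminated by the
directions of their neighbours. -/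
theorem Near.ill_mid (h : Near P δ) (hδ : δ ≤ 1 / 6) {σ : Fin d → Bool} {k : Fin d}
    {p q t : Fin d → ℝ} (hp : p ∈ P) (hq : q ∈ P) (hpN : ∀ i, NN P p σ i)
    (hqN : ∀ i, NN P q (flip σ k) i) (hpt : p + t ∈ interior P) (hqt : q + t ∈ interior P)
    (ht : ∀ i, i ≠ k → -(7 / 6) ≤ sg (σ i) * t i ∧ sg (σ i) * t i ≤ -(67 / 75))
    (htk : |t k| ≤ 11 / 20) {x : Fin d → ℝ} (hx : x ∈ P) {ρ : Fin d → Bool}
    (hρ : ∀ i, i ≠ k → ρ i = σ i) (hpat : Pat ρ x) (hxN : ∀ i, i ≠ k → NN P x ρ i) :
    Ill P t x := by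
  rcases close_aux hx hp hρ hpN hxN with rfl | ⟨M, hM0, hMk, hM⟩
  · exact ⟨1, one_pos, by rwa [one_smul]⟩
  rcases close_aux hx hq (σ := flip σ k) (fun i hi => by rw [flip_ne _ hi, hρ i hi]) hqN hxN with
    rfl | ⟨N, hN0, hNk, hN⟩
  · exact ⟨1, one_pos, by rwa [one_smul]⟩
  refine ill_of_normal h.conv h.int_nonempty hx fun f hf0 hf => ?_
  have h1 := h.bad_le hx hf hpat
  have h2 := h.good_pos hf0 hx hf hpat
  obtain ⟨a, ha⟩ : ∃ a : Fin d → ℝ, ∀ j, a j = sg (σ j) * co f j := ⟨_, fun j => rfl⟩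
  have e1 : ∀ g : Fin d → ℝ, ∑ j, g j = g k + ∑ j ∈ univ.erase k, g j := fun g =>
    (add_sum_erase univ g (mem_univ k)).symm
  obtain ⟨G, hG⟩ : ∃ G, G = ∑ j ∈ univ.erase k, max (a j) 0 := ⟨_, rfl⟩
  obtain ⟨B, hB⟩ : ∃ B, B = ∑ j ∈ univ.erase k, max (-a j) 0 := ⟨_, rfl⟩
  obtain ⟨S, hS⟩ : ∃ S, S = ∑ j ∈ univ.erase k, |co f j| := ⟨_, rfl⟩
  have hG0 : 0 ≤ G := by rw [hG]; exact sum_nonneg fun j _ => le_max_right _ _
  have hB0 : 0 ≤ B := by rw [hB]; exact sum_nonneg fun j _ => le_max_right _ _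
  have hSGB : S = G + B := by
    rw [hS, hG, hB, ← sum_add_distrib]
    refine sum_congr rfl fun j _ => ?_
    rw [← abs_eq_max, ha, abs_sg_mul]
  -- the `k`-th coefficient is small
  have hsum : ∀ (r : Fin d → ℝ) (c : ℝ), (∀ i, i ≠ k → |x i - r i| ≤ 16 / 25 * c) →
      ∑ j ∈ univ.erase k, co f j * (x j - r j) ≤ 16 / 25 * c * S := by
    intro r c hr
    rw [hS, mul_sum]
    refine sum_le_sum fun j hj => ?_
    calc co f j * (x j - r j) ≤ |co f j * (x j - r j)| := le_abs_self _
      _ = |x j - r j| * |co f j| := by rw [abs_mul, mul_comm]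
      _ ≤ _ := mul_le_mul_of_nonneg_right (hr j (mem_erase.1 hj).1) (abs_nonneg _)
  have hexp : ∀ r : Fin d → ℝ, f x - f r =
      co f k * (x k - r k) + ∑ j ∈ univ.erase k, co f j * (x j - r j) := by
    intro r
    rw [← map_sub, apply_eq, e1]
    rfl
  have hak1 : a k ≤ 16 / 25 * S := by
    have h3 := hf p hp
    have h4 := hsum p M hM
    have h5 := hexp p
    have h6 : co f k * (x k - p k) = -(a k * M) := by
      have := sg_mul (σ k)
      have e : co f k * (x k - p k) = (sg (σ k) * co f k) * (sg (σ k) * (x k - p k)) := by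
        linear_combination (-(co f k * (x k - p k))) * this
      rw [e, hMk, ← ha]; ring
    have h7 : a k * M ≤ (16 / 25 * S) * M := by linarith
    exact le_of_mul_le_mul_right h7 hM0
  have hak2 : -a k ≤ 16 / 25 * S := by
    have h3 := hf q hq
    have h4 := hsum q N hN
    have h5 := hexp q
    have h6 : co f k * (x k - q k) = a k * N := by
      rw [flip_self, sg_not] at hNk
      have := sg_mul (σ k)
      have e : co f k * (x k - q k) = (sg (σ k) * co f k) * (sg (σ k) * (x k - q k)) := by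
        linear_combination (-(co f k * (x k - q k))) * this
      rw [e, ← ha]
      have : sg (σ k) * (x k - q k) = N := by linarith
      rw [this]
    have h7 : -a k * N ≤ (16 / 25 * S) * N := by linarith
    exact le_of_mul_le_mul_right h7 hN0
  have hak : |a k| ≤ 16 / 25 * S := abs_le.2 ⟨by linarith, hak1⟩
  -- the bad part is small
  have e2 : ∀ c : ℝ, ∑ j ∈ univ.erase k, max (c * (sg (ρ j) * co f j)) 0 =
      ∑ j ∈ univ.erase k, max (c * a j) 0 := fun c => sum_congr rfl fun j hj => by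
    rw [ha, hρ j (mem_erase.1 hj).1]
  have e3 : ∑ j ∈ univ.erase k, max (sg (ρ j) * co f j) 0 = G := by
    rw [hG]
    simpa using e2 1
  have e4 : ∑ j ∈ univ.erase k, max (-(sg (ρ j) * co f j)) 0 = B := by
    rw [hB]
    simpa using e2 (-1)
  rw [e1, e1, e3, e4] at h1
  rw [e1, e3] at h2
  have h3 : max (sg (ρ k) * co f k) 0 ≤ |a k| := by
    rw [ha, abs_sg_mul]
    refine max_le ?_ (abs_nonneg _)
    refine (le_abs_self _).trans ?_
    rw [abs_sg_mul]
  have h4 : 0 ≤ max (-(sg (ρ k) * co f k)) 0 := le_max_right _ _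
  have h5 : 0 ≤ max (sg (ρ k) * co f k) 0 := le_max_right _ _
  have h6 : δ * (max (sg (ρ k) * co f k) 0 + G) ≤ 1 / 6 * (max (sg (ρ k) * co f k) 0 + G) :=
    mul_le_mul_of_nonneg_right hδ (by linarith)
  -- the value of `f t`
  have h7 : f t ≤ 11 / 20 * |a k| + (7 / 6 * B - 67 / 75 * G) := by
    rw [apply_eq, e1]
    refine add_le_add ?_ ?_
    · calc co f k * t k ≤ |co f k * t k| := le_abs_self _
        _ = |t k| * |co f k| := by rw [abs_mul, mul_comm]
        _ ≤ 11 / 20 * |co f k| := mul_le_mul_of_nonneg_right htk (abs_nonneg _)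
        _ = _ := by rw [ha, abs_sg_mul]
    · rw [hB, hG, mul_sum, mul_sum, ← sum_sub_distrib]
      refine sum_le_sum fun j hj => ?_
      have h8 := ht j (mem_erase.1 hj).1
      have e : co f j * t j = a j * (sg (σ j) * t j) := by
        rw [ha]
        have := sg_mul (σ j)
        linear_combination (-(co f j * t j)) * this
      rw [e]
      rcases le_total 0 (a j) with h9 | h9
      · rw [max_eq_left h9, max_eq_right (by linarith)]; nlinarith
      · rw [max_eq_right h9, max_eq_left (by linarith)]; nlinarith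
  nlinarith

/-- Two neighbouring corners can be merged. -/
theorem Near.cov_of_merge (h : Near P δ) (hδ : δ ≤ 1 / 6) {σ : Fin d → Bool} {k : Fin d}
    {p q t : Fin d → ℝ} (hp : p ∈ P) (hq : q ∈ P) (hpN : ∀ i, NN P p σ i)
    (hqN : ∀ i, NN P q (flip σ k) i) (hpt : p + t ∈ interior P) (hqt : q + t ∈ interior P)
    (ht : ∀ i, i ≠ k → -(7 / 6) ≤ sg (σ i) * t i ∧ sg (σ i) * t i ≤ -(67 / 75))
    (htk : |t k| ≤ 11 / 20) : Cov (2 ^ d - 1) P := by
  classical
  have h1 := cov_of_ill h.conv h.comp (ι := {ρ : Fin d → Bool // ρ ≠ σ})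
    (fun ρ => if ρ.1 = flip σ k then t else dir ρ.1 fun i =>
      if i ≠ k ∧ (ρ.1 = flip σ i ∨ ρ.1 = flip (flip σ k) i) then 17 / 100 else 1) (by
    intro x hx
    obtain ⟨ρ, hρ⟩ := exists_pat x
    by_cases hρσ : ρ = σ ∨ ρ = flip σ k
    · have hρi : ∀ i, i ≠ k → ρ i = σ i := by
        intro i hi
        rcases hρσ with rfl | rfl
        · rfl
        · rw [flip_ne _ hi]
      by_cases hN : ∀ i, i ≠ k → NN P x ρ i
      · refine ⟨⟨flip σ k, flip_ne_self σ k⟩, ?_⟩
        rw [if_pos rfl]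
        exact h.ill_mid hδ hp hq hpN hqN hpt hqt ht htk hx hρi hρ hN
      · push Not at hN
        obtain ⟨i, hik, hi⟩ := hN
        have hne1 : flip ρ i ≠ σ := by
          intro h'
          have h2 := congrFun h' i
          rw [flip_self, hρi i hik] at h2
          cases h3 : σ i <;> simp [h3] at h2
        have hne2 : flip ρ i ≠ flip σ k := by
          intro h'
          have h2 := congrFun h' i
          rw [flip_self, flip_ne _ hik, hρi i hik] at h2
          cases h3 : σ i <;> simp [h3] at h2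
        refine ⟨⟨flip ρ i, hne1⟩, ?_⟩
        rw [if_neg hne2]
        have e : (fun j => if j ≠ k ∧ (flip ρ i = flip σ j ∨ flip ρ i = flip (flip σ k) j) then
            (17 : ℝ) / 100 else 1) = red i := by
          funext j
          rw [red]
          by_cases hj : j = i
          · rw [if_pos hj, if_pos]
            subst hj
            refine ⟨hik, ?_⟩
            rcases hρσ with rfl | rfl
            · exact Or.inl rfl
            · exact Or.inr rfl
          · rw [if_neg hj, if_neg]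
            rintro ⟨hjk, h2 | h2⟩
            · have h3 := congrFun h2 i
              rw [flip_self, flip_ne _ (Ne.symm hj), hρi i hik] at h3
              cases h4 : σ i <;> simp [h4] at h3
            · have h3 := congrFun h2 i
              rw [flip_self, flip_ne _ (Ne.symm hj), flip_ne _ hik, hρi i hik] at h3
              cases h4 : σ i <;> simp [h4] at h3
        show Ill P (dir (flip ρ i) fun j => if j ≠ k ∧ (flip ρ i = flip σ j ∨
          flip ρ i = flip (flip σ k) j) then (17 : ℝ) / 100 else 1) x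
        rw [e]
        exact h.ill_flip hδ hx hρ hi
    · push Not at hρσ
      refine ⟨⟨ρ, hρσ.1⟩, ?_⟩
      rw [if_neg hρσ.2]
      refine h.ill_dir hx hρ (θ₀ := 17 / 100) (by linarith) (fun i => ?_) fun i => ?_
      · show _ ≤ if _ then _ else _
        split_ifs <;> norm_num
      · show (if _ then _ else _) ≤ (1 : ℝ)
        split_ifs <;> norm_num)
  have h2 : Fintype.card {ρ : Fin d → Bool // ρ ≠ σ} = 2 ^ d - 1 := by
    rw [Fintype.card_subtype_compl]
    simp
  rwa [h2] at h1

end Pool.Agent.V7H11.NC
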