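import Pool.Agent.V7H11.NC.Fine

set_option autoImplicit false

/-!
# If all directions are fine, the body is a parallelotope
-/

namespace Pool.Agent.V7H11.NC

open Pool.Agent.W396.Il Finset

variable {d : ℕ} {P : Set (Fin d → ℝ)} {δ : ℝ}

/-- parallelotopes in `ℝ^d`: given by the values of `d` functionals which are coordinates -/
def IsPar (P : Set (Fin d → ℝ)) : Prop :=
  ∃ (N : (Fin d → ℝ) ≃ₗ[ℝ] (Fin d → ℝ)) (m M : Fin d → ℝ), (∀ k, m k < M k) ∧
    P = {x | ∀ k, m k ≤ N x k ∧ N x k ≤ M k}

theorem Near.par_of_fine (h : Near P δ) {X : (Fin d → Bool) → Fin d → ℝ} (hX : ∀ σ, X σ ∈ P)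
    (hf : ∀ k, FineAt P X k) : IsPar P := by
  choose n m M hmM hnP hnX using hf
  obtain ⟨N, hN⟩ : ∃ N : (Fin d → ℝ) →ₗ[ℝ] (Fin d → ℝ), ∀ x k, N x k = n k x :=
    ⟨LinearMap.pi fun k => (n k).toLinearMap, fun _ _ => rfl⟩
  have hsurj : Function.Surjective N := by
    intro w
    refine ⟨∑ k, (w k / (M k - m k)) • (X (fun _ => true) - X (flip (fun _ => true) k)), ?_⟩
    funext j
    rw [hN, map_sum, sum_eq_single j]
    · rw [map_smul, map_sub, hnX, hnX, flip_self]
      simp only [if_true, Bool.not_true, Bool.false_eq_true, if_false, smul_eq_mul]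
      exact div_mul_cancel₀ _ (by linarith [hmM j])
    · intro k _ hkj
      rw [map_smul, map_sub, hnX, hnX, flip_ne _ (Ne.symm hkj)]
      simp
    · intro hj; exact absurd (mem_univ j) hj
  have hinj : Function.Injective N := LinearMap.injective_iff_surjective.2 hsurj
  refine ⟨LinearEquiv.ofBijective N ⟨hinj, hsurj⟩, m, M, hmM,
    Set.Subset.antisymm (fun x hx k => ?_) fun x hx => ?_⟩
  · show m k ≤ N x k ∧ N x k ≤ M k
    rw [hN]
    exact hnP k x hx
  have hx' : ∀ k, m k ≤ n k x ∧ n k x ≤ M k := fun k => by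
    have : m k ≤ N x k ∧ N x k ≤ M k := hx k
    rwa [hN] at this
  -- the weights
  obtain ⟨g, hg⟩ : ∃ g : Fin d → Bool → ℝ, ∀ k b, g k b =
      if b then (n k x - m k) / (M k - m k) else (M k - n k x) / (M k - m k) :=
    ⟨_, fun _ _ => rfl⟩
  have hg0 : ∀ k b, 0 ≤ g k b := by
    intro k b
    have h1 := hx' k
    have h2 := hmM k
    rw [hg]
    split_ifs
    · exact div_nonneg (by linarith [h1.1]) (by linarith)
    · exact div_nonneg (by linarith [h1.2]) (by linarith)
  have hg1 : ∀ k, ∑ b, g k b = 1 := by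
    intro k
    have h2 := hmM k
    rw [Fintype.sum_bool, hg, hg]
    simp only [if_true, Bool.false_eq_true, if_false]
    rw [← add_div, div_eq_one_iff_eq (by linarith)]
    ring
  have hprod : ∀ f : Fin d → Bool → ℝ, ∑ σ : Fin d → Bool, ∏ k, f k (σ k) = ∏ k, ∑ b, f k b := by
    intro f
    rw [prod_univ_sum, Fintype.piFinset_univ]
  have hw1 : ∑ σ : Fin d → Bool, ∏ k, g k (σ k) = 1 := by
    rw [hprod]
    exact prod_eq_one fun k _ => hg1 k
  have hmem : ∑ σ : Fin d → Bool, (∏ k, g k (σ k)) • X σ ∈ P :=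
    h.conv.sum_mem (fun σ _ => prod_nonneg fun k _ => hg0 k _) hw1 fun σ _ => hX σ
  have heq : ∑ σ : Fin d → Bool, (∏ k, g k (σ k)) • X σ = x := by
    apply hinj
    funext k
    rw [hN, hN, map_sum]
    have h1 : ∀ σ : Fin d → Bool, n k ((∏ j, g j (σ j)) • X σ) =
        ∏ j, (if j = k then g j (σ j) * (if σ j then M k else m k) else g j (σ j)) := by
      intro σ
      rw [map_smul, smul_eq_mul, hnX]
      rw [← mul_prod_erase univ _ (mem_univ k), ← mul_prod_erase univ
        (fun j => if j = k then g j (σ j) * (if σ j then M k else m k) else g j (σ j))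
        (mem_univ k)]
      rw [if_pos rfl]
      have : ∏ j ∈ univ.erase k, (if j = k then g j (σ j) * (if σ j then M k else m k)
          else g j (σ j)) = ∏ j ∈ univ.erase k, g j (σ j) :=
        prod_congr rfl fun j hj => if_neg (mem_erase.1 hj).1
      rw [this]; ring
    simp only [h1]
    rw [hprod fun j b => if j = k then g j b * (if b then M k else m k) else g j b]
    rw [← mul_prod_erase univ _ (mem_univ k)]
    have h2 : ∏ j ∈ univ.erase k, ∑ b, (if j = k then g j b * (if b then M k else m k)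
        else g j b) = 1 := by
      refine prod_eq_one fun j hj => ?_
      simp only [if_neg (mem_erase.1 hj).1]
      exact hg1 j
    rw [h2, mul_one]
    simp only [if_true]
    have h3 := hmM k
    rw [Fintype.sum_bool, hg, hg]
    simp only [if_true, Bool.false_eq_true, if_false]
    have : M k - m k ≠ 0 := by linarith
    field_simp
    ring
  rwa [heq] at hmem

/-- **Main theorem for the polar body**, with a neighbourhood independent of the dimension. -/
theorem Near.main (h : Near P δ) (hδ : δ ≤ 1 / 6) : Cov (2 ^ d - 1) P ∨ IsPar P := by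
  by_cases hv : ∃ σ : Fin d → Bool, ∀ x ∈ P, Pat σ x → ∃ i, ¬ NN P x σ i
  · obtain ⟨σ, hσ⟩ := hv
    exact Or.inl (h.cov_of_missing hδ σ hσ)
  · push Not at hv
    choose X hX _ hN using hv
    by_cases hf : ∀ k, FineAt P X k
    · exact Or.inr (h.par_of_fine hX hf)
    · push Not at hf
      obtain ⟨k, hk⟩ := hf
      rcases h.fine_or_cov hδ X hX hN k with h1 | h1
      · exact Or.inl h1
      · exact absurd h1 hk

end Pool.Agent.V7H11.NC
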