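import Pool.Agent.V7H11.NC.Basic

set_option autoImplicit false

/-!
# Points with normals close to the coordinate directions
-/

namespace Pool.Agent.V7H11.NC

open Pool.Agent.W396.Il Finset

variable {d : ℕ} {P : Set (Fin d → ℝ)} {δ : ℝ}

/-- There is a normal of `P` at `x` close to the vector `σ i • e i`. -/
def NN (P : Set (Fin d → ℝ)) (x : Fin d → ℝ) (σ : Fin d → Bool) (i : Fin d) : Prop :=
  ∃ f : (Fin d → ℝ) →L[ℝ] ℝ, Nor P f x ∧ sg (σ i) * co f i = 1 ∧
    ∑ j ∈ univ.erase i, |co f j| ≤ 16 / 25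

theorem Nor.smul {f : (Fin d → ℝ) →L[ℝ] ℝ} {x : Fin d → ℝ} (hf : Nor P f x) {c : ℝ}
    (hc : 0 ≤ c) : Nor P (c • f) x := fun y hy => by
  show c * f y ≤ c * f x
  exact mul_le_mul_of_nonneg_left (hf y hy) hc

/-- the weights which are reduced at `i` -/
noncomputable def red (i : Fin d) : Fin d → ℝ := fun j => if j = i then 17 / 100 else 1

/-- flip the sign at `i` -/
def flip (σ : Fin d → Bool) (i : Fin d) : Fin d → Bool := fun j => if j = i then !σ j else σ j

theorem flip_self (σ : Fin d → Bool) (i : Fin d) : flip σ i i = !σ i := by simp [flip]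
theorem flip_ne (σ : Fin d → Bool) {i j : Fin d} (h : j ≠ i) : flip σ i j = σ j := by
  simp [flip, h]

theorem flip_ne_self (σ : Fin d → Bool) (i : Fin d) : flip σ i ≠ σ := by
  intro h
  have := congrFun h i
  rw [flip_self] at this
  cases h' : σ i <;> simp [h'] at this

theorem flip_flip (σ : Fin d → Bool) (i : Fin d) : flip (flip σ i) i = σ := by
  funext j
  by_cases h : j = i
  · subst h; rw [flip_self, flip_self, Bool.not_not]
  · rw [flip_ne _ h, flip_ne _ h]

theorem flip_inj {σ : Fin d → Bool} {i j : Fin d} (h : flip σ i = flip σ j) : i = j := by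
  by_contra hne
  have := congrFun h i
  rw [flip_self, flip_ne _ hne] at this
  cases h' : σ i <;> simp [h'] at this

/-- A normal which is not negative in the direction of a neighbouring pattern is nearly parallel to
a coordinate direction. -/
theorem Near.near_of_nonneg (h : Near P δ) (hδ : δ ≤ 1 / 6) {f : (Fin d → ℝ) →L[ℝ] ℝ}
    (hf0 : f ≠ 0) {x : Fin d → ℝ} (hx : x ∈ P) (hf : Nor P f x) {σ : Fin d → Bool}
    (hσ : Pat σ x) {i : Fin d} (hi : 0 ≤ f (dir (flip σ i) (red i))) :
    0 < sg (σ i) * co f i ∧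
      ∑ j ∈ univ.erase i, |co f j| ≤ 16 / 25 * (sg (σ i) * co f i) := by
  have h1 := h.bad_le hx hf hσ
  have h2 := h.good_pos hf0 hx hf hσ
  obtain ⟨a, ha⟩ : ∃ a : Fin d → ℝ, ∀ j, a j = sg (σ j) * co f j := ⟨_, fun j => rfl⟩
  simp only [← ha] at h1 h2 ⊢
  have e1 : ∀ g : Fin d → ℝ, ∑ j, g j = g i + ∑ j ∈ univ.erase i, g j := fun g =>
    (add_sum_erase univ g (mem_univ i)).symm
  rw [e1, e1] at h1
  rw [e1] at h2
  have h3 : f (dir (flip σ i) (red i)) = 17 / 100 * a i - (∑ j ∈ univ.erase i, max (a j) 0 -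
      ∑ j ∈ univ.erase i, max (-a j) 0) := by
    rw [apply_eq, e1, ← sum_sub_distrib]
    have e2 : co f i * dir (flip σ i) (red i) i = 17 / 100 * a i := by
      rw [dir, flip_self, red, if_pos rfl, ha, sg_not]; ring
    have e3 : ∑ j ∈ univ.erase i, co f j * dir (flip σ i) (red i) j =
        -∑ j ∈ univ.erase i, (max (a j) 0 - max (-a j) 0) := by
      rw [← sum_neg_distrib]
      refine sum_congr rfl fun j hj => ?_
      have hji := (mem_erase.1 hj).1
      rw [← eq_max, dir, flip_ne _ hji, red, if_neg hji, ha]; ring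
    rw [e2, e3]; ring
  have h4 : ∑ j ∈ univ.erase i, |co f j| = ∑ j ∈ univ.erase i, max (a j) 0 +
      ∑ j ∈ univ.erase i, max (-a j) 0 := by
    rw [← sum_add_distrib]
    refine sum_congr rfl fun j _ => ?_
    rw [← abs_eq_max, ha, abs_sg_mul]
  obtain ⟨G, hG⟩ : ∃ G, G = ∑ j ∈ univ.erase i, max (a j) 0 := ⟨_, rfl⟩
  obtain ⟨B, hB⟩ : ∃ B, B = ∑ j ∈ univ.erase i, max (-a j) 0 := ⟨_, rfl⟩
  have hG0 : 0 ≤ G := by rw [hG]; exact sum_nonneg fun j _ => le_max_right _ _
  have hB0 : 0 ≤ B := by rw [hB]; exact sum_nonneg fun j _ => le_max_right _ _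
  rw [h4]
  rw [h3] at hi
  rw [← hG, ← hB] at hi ⊢
  rw [← hG, ← hB] at h1
  rw [← hG] at h2
  have hδ0 := h.pos
  rcases lt_or_ge 0 (a i) with h5 | h5
  · rw [max_eq_left h5.le, max_eq_right (by linarith)] at h1
    refine ⟨h5, ?_⟩
    have h6 : δ * (a i + G) ≤ 1 / 6 * (a i + G) :=
      mul_le_mul_of_nonneg_right hδ (by linarith)
    linarith
  · rw [max_eq_right h5, max_eq_left (by linarith)] at h1
    rw [max_eq_right h5] at h2
    have h6 : δ * (0 + G) ≤ 1 / 6 * (0 + G) := mul_le_mul_of_nonneg_right hδ (by linarith)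
    linarith

/-- If `x` has no normal close to `σ i • e i`, the direction of the neighbour illuminates it. -/
theorem Near.ill_flip (h : Near P δ) (hδ : δ ≤ 1 / 6) {x : Fin d → ℝ} (hx : x ∈ P)
    {σ : Fin d → Bool} (hσ : Pat σ x) {i : Fin d} (hi : ¬ NN P x σ i) :
    Ill P (dir (flip σ i) (red i)) x := by
  refine ill_of_normal h.conv h.int_nonempty hx fun f hf0 hf => ?_
  by_contra hcon
  obtain ⟨h1, h2⟩ := h.near_of_nonneg hδ hf0 hx hf hσ (not_lt.1 hcon)
  apply hi
  refine ⟨(sg (σ i) * co f i)⁻¹ • f, Nor.smul hf (by positivity), ?_, ?_⟩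
  · rw [co_smul, mul_left_comm]
    exact inv_mul_cancel₀ h1.ne'
  · simp only [co_smul, abs_mul, abs_inv, abs_of_pos h1]
    rw [← mul_sum, inv_mul_le_iff₀ h1]
    linarith

theorem red_ge (i j : Fin d) : 17 / 100 ≤ red i j := by
  rw [red]; split_ifs <;> norm_num

theorem red_le (i j : Fin d) : red i j ≤ 1 := by
  rw [red]; split_ifs <;> norm_num

/-- location of the points with normals close to the coordinate directions -/
theorem Near.loc (h : Near P δ) {x : Fin d → ℝ} (hx : x ∈ P) {σ : Fin d → Bool} {i : Fin d}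
    (hi : NN P x σ i) : 1 - 16 / 25 * δ ≤ sg (σ i) * x i ∧ sg (σ i) * x i ≤ 1 + δ := by
  refine ⟨?_, ?_⟩
  · obtain ⟨f, hf, h1, h2⟩ := hi
    have h3 := h.sum_abs_le hf
    rw [apply_eq, ← add_sum_erase univ _ (mem_univ i), ← add_sum_erase univ _ (mem_univ i)] at h3
    have h4 : |co f i| = 1 := by rw [← abs_sg_mul (σ i), h1, abs_one]
    have h5 : co f i * x i = sg (σ i) * x i := by
      have := sg_mul_mul (σ i) (co f i)
      rw [h1, mul_one] at this
      rw [← this]
    have h6 : ∑ j ∈ univ.erase i, co f j * x j ≤ (1 + δ) * ∑ j ∈ univ.erase i, |co f j| := by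
      rw [mul_sum]
      refine sum_le_sum fun j _ => ?_
      calc co f j * x j ≤ |co f j * x j| := le_abs_self _
        _ = |x j| * |co f j| := by rw [abs_mul, mul_comm]
        _ ≤ _ := mul_le_mul_of_nonneg_right (h.bd x hx j) (abs_nonneg _)
    rw [h4, h5] at h3
    have h7 : δ * ∑ j ∈ univ.erase i, |co f j| ≤ δ * (16 / 25) :=
      mul_le_mul_of_nonneg_left h2 h.pos
    nlinarith [h.pos]
  · refine (le_abs_self _).trans ?_
    rw [abs_sg_mul]; exact h.bd x hx i

/-- If there is no point with the pattern `σ` and normals close to all coordinate directions, then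
`2 ^ d - 1` translates suffice. -/
theorem Near.cov_of_missing (h : Near P δ) (hδ : δ ≤ 1 / 6) (σ : Fin d → Bool)
    (hσ : ∀ x ∈ P, Pat σ x → ∃ i, ¬ NN P x σ i) : Cov (2 ^ d - 1) P := by
  classical
  have h1 := cov_of_ill h.conv h.comp (ι := {ρ : Fin d → Bool // ρ ≠ σ})
    (fun ρ => dir ρ.1 fun i => if ρ.1 = flip σ i then 17 / 100 else 1) (by
    intro x hx
    obtain ⟨ρ, hρ⟩ := exists_pat x
    by_cases hρσ : ρ = σ
    · subst hρσ
      obtain ⟨i, hi⟩ := hσ x hx hρ
      refine ⟨⟨flip ρ i, flip_ne_self ρ i⟩, ?_⟩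
      have e : (fun j => if flip ρ i = flip ρ j then (17 : ℝ) / 100 else 1) = red i := by
        funext j
        rw [red]
        by_cases hj : j = i
        · rw [if_pos (by rw [hj]), if_pos hj]
        · rw [if_neg (fun h => hj (flip_inj h).symm), if_neg hj]
      show Ill P (dir (flip ρ i) fun j => if flip ρ i = flip ρ j then (17 : ℝ) / 100 else 1) x
      rw [e]
      exact h.ill_flip hδ hx hρ hi
    · refine ⟨⟨ρ, hρσ⟩, h.ill_dir hx hρ (θ₀ := 17 / 100) (by linarith) (fun i => ?_) fun i => ?_⟩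
      · show _ ≤ if _ then _ else _
        split_ifs <;> norm_num
      · show (if _ then _ else _) ≤ (1 : ℝ)
        split_ifs <;> norm_num)
  have h2 : Fintype.card {ρ : Fin d → Bool // ρ ≠ σ} = 2 ^ d - 1 := by
    rw [Fintype.card_subtype_compl]
    simp
  rwa [h2] at h1

end Pool.Agent.V7H11.NC
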